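import Pool.Agent.H493.TM.Fin

/-!
# Montgomery's theorem with exponential factors in every short interval, unconditionally

For exponential polynomials `P`, `Q` with arbitrary real frequencies, the pair correlation function
`F_{P,Q}(α) = (H log T / 2π)⁻¹ ∑ P(ρ) Q(ρ') T ^ (α (ρ - ρ')) exp ((ρ - ρ')² / 4)` of all the
nontrivial zeros `ρ, ρ'` with ordinate in `(t, t + H]`, `T ^ η ≤ H ≤ T / 2`, `t ∈ [T, 2T]`,
integrated against Lipschitz functions `ψ` vanishing outside `(-μ, μ)`, `μ < η`, is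
`(mean of P Q) (ψ(0) + ∫ |α| ψ(α) dα)` up to `ε`; if `P Q` has no constant term then `F_{P,Q}(α)` is
uniformly small for `δ ≤ |α| ≤ μ`.
-/

set_option autoImplicit false

open Filter Topology Complex MeasureTheory

namespace Pool.Agent.Results.MP_00e05b_nt.AlmostPeriodicFactors

/-- the nontrivial zeros of zeta with ordinate in `(a, b]` -/
def zeros (a b : ℝ) : Set ℂ :=
  {s : ℂ | riemannZeta s = 0 ∧ 0 < s.re ∧ s.re < 1 ∧ a < s.im ∧ s.im ≤ b}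

/-- the multiplicity of a zero -/
noncomputable def m (s : ℂ) : ℂ := (analyticOrderNatAt riemannZeta s : ℂ)

/-- the exponential polynomial `∑ a_j exp (σ_j (s - 1/2))`, arbitrary real frequencies `σ_j` -/
noncomputable def expPoly {n : ℕ} (a : Fin n → ℂ) (σ : Fin n → ℝ) (s : ℂ) : ℂ :=
  ∑ j, a j * cexp (σ j * (s - 1 / 2))

/-- the sum of `a_i b_j` over the `i, j` with `σ_i + τ_j = 0` -/
noncomputable def mean {k l : ℕ} (a : Fin k → ℂ) (σ : Fin k → ℝ) (b : Fin l → ℂ)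
    (τ : Fin l → ℝ) : ℂ := ∑ i, ∑ j, if σ i + τ j = 0 then a i * b j else 0

/-- the pair correlation function of the zeros with ordinate in `(t, t + H]`, with factors
`P(ρ) Q(ρ')` -/
noncomputable def F (P Q : ℂ → ℂ) (t H T α : ℝ) : ℂ :=
  ((H * Real.log T / (2 * Real.pi) : ℝ) : ℂ)⁻¹ * ∑ᶠ s ∈ zeros t (t + H), ∑ᶠ s' ∈ zeros t (t + H),
    m s * m s' * (P s * Q s' * ((T : ℂ) ^ ((α : ℂ) * (s - s')) * cexp ((s - s') ^ 2 / 4)))

/-- the main term -/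
noncomputable def M (ψ : ℝ → ℝ) (μ : ℝ) : ℝ := ψ 0 + ∫ α in (-μ)..μ, |α| * ψ α

/-- the sets of zeros that are summed over are finite -/
theorem zeros_finite (T₁ T₂ : ℝ) (h : 0 < T₁) : (zeros T₁ T₂).Finite :=
  Pool.Agent.H493.TM.zeros_finite T₁ T₂ h

theorem result :
    ∀ (k l : ℕ) (a : Fin k → ℂ) (σ : Fin k → ℝ) (b : Fin l → ℂ) (τ : Fin l → ℝ),
    -- `mean` is the mean value of the product on the critical line
    Tendsto (fun X : ℝ => (X : ℂ)⁻¹ * ∫ x in (0 : ℝ)..X,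
      expPoly a σ (1 / 2 + x * I) * expPoly b τ (1 / 2 + x * I)) atTop (𝓝 (mean a σ b τ)) ∧
    ∀ η μ ε : ℝ, η < 1 → 0 < μ → μ < η → 0 < ε →
    -- the integrated form
    (∀ ψ : ℝ → ℝ, (∃ K : ℝ, ∀ x y, |ψ x - ψ y| ≤ K * |x - y|) → (∀ x, μ ≤ |x| → ψ x = 0) →
      ∃ T₀ : ℝ, ∀ T : ℝ, T₀ ≤ T → ∀ H : ℝ, T ^ η ≤ H → H ≤ T / 2 → ∀ t : ℝ, T ≤ t → t ≤ 2 * T →
      ‖(∫ α in (-μ)..μ, (ψ α : ℂ) * F (expPoly a σ) (expPoly b τ) t H T α) -
        mean a σ b τ * (M ψ μ : ℂ)‖ ≤ ε) ∧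
    -- the pointwise form if the product has no constant term
    ((∀ i j, σ i + τ j ≠ 0) → ∀ δ : ℝ, 0 < δ → δ ≤ μ →
      ∃ T₀ : ℝ, ∀ T : ℝ, T₀ ≤ T → ∀ H : ℝ, T ^ η ≤ H → H ≤ T / 2 → ∀ t : ℝ, T ≤ t → t ≤ 2 * T →
      ∀ α : ℝ, δ ≤ |α| → |α| ≤ μ → ‖F (expPoly a σ) (expPoly b τ) t H T α‖ ≤ ε) := by
  intro k l a σ b τ
  refine ⟨Pool.Agent.H493.TM.mean_PQ a σ b τ, fun η μ ε hη1 hμ hμη hε => ⟨?_, ?_⟩⟩
  · rintro ψ ⟨K, hK⟩ hz
    exact Pool.Agent.H493.TM.main_psi η μ ε hη1 hμ hμη hε a σ b τ hK hz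
  · intro hne δ hδ hδμ
    exact Pool.Agent.H493.TM.main_point η μ δ ε hη1 hδ hδμ hμη hε a σ b τ hne

end Pool.Agent.Results.MP_00e05b_nt.AlmostPeriodicFactors
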