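import Pool.Agent.H493.EN.All
import Pool.Agent.H493.EN.BLK
import Pool.Agent.H493.EN.GLB

set_option autoImplicit false

/-!
# Numbers of zeros in mesoscopic windows are orthogonal to deterministic sequences

No hypothesis is made on the zeros of zeta: the zeros are all the nontrivial zeros, counted with multiplicity by
their ordinates.  Let `(a_j, b_j]`, `j = 1, ..., k`, be intervals.  For `s > 0` and a height `t` let `X_s(t)` be the vector of the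
normalised numbers of zeros in the windows `(t + a_j s, t + b_j s]`,

`X_j = (n(t + a_j s, t + b_j s) - (b_j - a_j) s log T / 2π) / (√(log (s log T)) / π)`,

and let `N` be the Gaussian vector with the covariances
`([a_i = a_j] + [b_i = b_j] - [a_i = b_j] - [b_i = a_j]) / 2`.

All the statements are uniform in the scale: for every `ε > 0` there is `K` such that they hold for all `T ≥ K` and
all `s` with `K/log T ≤ s ≤ 1/K`.  So the windows may contain a bounded number of zeros on average.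

1. Exponential inequality.  Let `ψ` be `L`-Lipschitz.  For any finite set `P` of sequences of complex numbers of
   modulus at most `1`, the measure of the `t` in `[T, 2T]` for which one of the sequences `p` in `P` correlates with
   the fluctuations at the `M` consecutive points, `|∑_{m<M} p_m (ψ(X_s(t + ms)) - E ψ(N))| ≥ εM`, is at most
   `5 |P| exp(-ε²M/(64π²kL²)) T`.
2. Entropy bound.  If `θ`, `|θ| ≤ 1`, follows at most `exp(κM)` patterns of length `M` (up to a small error), then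
   `|∫_T^{2T} θ(t) (ψ(X_s(t)) - E ψ(N)) dt| ≤ (8πL√(kκ) + ε) T`.
3. Zero entropy.  For continuous `ψ` of at most quadratic growth (for instance `ψ(x) = x_i x_j`: the covariance of the
   numbers of zeros in two windows) the integral is at most `εT` if `κ` is small.
4. Systems of zero entropy.  Let `Q` be a map of a compact metric space `Y`, of zero topological entropy, and let
   `F : Y → ℂ` be continuous.  Then the sum over consecutive windows of `[T, 2T]` of the absolute values of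
   `∫ F(Q^⌊t/s⌋ y) (ψ(X_s(t)) - E ψ(N)) dt` is at most `εT`, with a new point `y` in every window; the mean length of the
   windows has to be at least `K s`.
5. Arithmetic progressions.  In the mean over the offsets `x` in `[0, 1]`, the sum over `T ≤ ns < (n + 1)s ≤ 2T` of
   `F(Q^n y) (ψ(X_s((n + x)s)) - E ψ(N))` is at most `ε T/s` in absolute value.
6. Slowly varying functions.  If `∫_T^{2T} |θ(t + s) - θ(t)| dt ≤ T/K` then
   `|∫_T^{2T} θ(t) (ψ(X_s(t)) - E ψ(N)) dt| ≤ εT`.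
7. Sharpness.  The square root of the entropy in part 2 is the right order.  Let `X_s(t)` be the normalised number of
   zeros in `(t, t + s]`.  For every `0 < κ ≤ 1` some `θ`, `|θ| ≤ 1`, which follows exactly at most `exp(κM)` patterns of
   length `M`, for all large `M`, has `|∫_T^{2T} θ(t) X_s(t) dt| ≥ (√κ/2) T`.
-/

open Complex Filter Topology Set MeasureTheory ProbabilityTheory
open scoped NNReal

namespace Pool.Agent.Results.MP_00e05b_nt.DeterministicSampling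

/-- the nontrivial zeros of zeta -/
def zeros : Set ℂ := {s : ℂ | riemannZeta s = 0 ∧ 0 < s.re ∧ s.re < 1}

/-- multiplicity of a zero of zeta -/
noncomputable def mult (s : ℂ) : ℕ := analyticOrderNatAt riemannZeta s

/-- the number of zeros with ordinate in `(u, v]`, with multiplicity -/
noncomputable def count (u v : ℝ) : ℕ := ∑ᶠ z ∈ {z : ℂ | z ∈ zeros ∧ u < z.im ∧ z.im ≤ v}, mult z

/-- the normalised number of zeros in the window `(t + a s, t + b s]` -/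
noncomputable def norm (a b s T t : ℝ) : ℝ :=
  (count (t + a * s) (t + b * s) - (b - a) * s * Real.log T / (2 * Real.pi)) /
    (Real.sqrt (Real.log (s * Real.log T)) / Real.pi)

/-- the vector of the normalised numbers of zeros -/
noncomputable def field {k : ℕ} (a b : Fin k → ℝ) (s T t : ℝ) : EuclideanSpace ℝ (Fin k) :=
  WithLp.toLp 2 fun j => norm (a j) (b j) s T t

open Classical in
/-- the limiting covariances -/
noncomputable def cov {k : ℕ} (a b : Fin k → ℝ) (i j : Fin k) : ℝ :=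
  ((if a i = a j then 1 else 0) + (if b i = b j then 1 else 0) - (if a i = b j then 1 else 0) -
    (if b i = a j then 1 else 0)) / 2

/-- the Gaussian law with these covariances -/
noncomputable def gauss {k : ℕ} (a b : Fin k → ℝ) : Measure (EuclideanSpace ℝ (Fin k)) :=
  multivariateGaussian 0 (Matrix.of (cov a b))

/-- the fluctuation `ψ(X_s(t)) - E ψ(N)` -/
noncomputable def fluct {k : ℕ} (a b : Fin k → ℝ) (ψ : EuclideanSpace ℝ (Fin k) → ℝ) (s T t : ℝ) : ℝ :=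
  ψ (field a b s T t) - ∫ x, ψ x ∂(gauss a b)

/-- `R T s` holds for all large `T` and all scales `s` with `K/log T ≤ s ≤ 1/K` -/
def Mesoscopic (R : ℝ → ℝ → Prop) : Prop :=
  ∃ K : ℝ, 1 ≤ K ∧ ∀ T : ℝ, K ≤ T → ∀ s : ℝ, K ≤ s * Real.log T → s ≤ 1 / K → R T s

/-- outside a set of measure at most `δT`, the values `θ(t), θ(t + s), ..., θ(t + (M-1)s)` are at mean distance at
most `δ` from one of at most `exp(κM)` sequences -/
def Follows (T s : ℝ) (M : ℕ) (κ δ : ℝ) (θ : ℝ → ℂ) : Prop :=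
  ∃ (P : Finset (ℕ → ℂ)) (E : Set ℝ), (P.card : ℝ) ≤ Real.exp (κ * M) ∧ (∀ p ∈ P, ∀ m, ‖p m‖ ≤ 1) ∧
    volume E ≤ ENNReal.ofReal (δ * T) ∧ ∀ t ∈ Icc T (2 * T), t ∉ E →
      ∃ p ∈ P, ∑ m ∈ Finset.range M, ‖θ (t + m * s) - p m‖ ≤ δ * M

/-- zero topological entropy (Bowen): for every `ε > 0` and every `κ > 0`, the orbits of length `M` are within `ε` of
at most `exp(κM)` orbits if `M` is large -/
def ZeroEntropy {Y : Type} [MetricSpace Y] (Q : Y → Y) : Prop :=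
  ∀ ε κ : ℝ, 0 < ε → 0 < κ → ∃ M₀ : ℕ, ∀ M : ℕ, M₀ ≤ M → ∃ A : Finset Y, (A.card : ℝ) ≤ Real.exp (κ * M) ∧
    ∀ y : Y, ∃ b ∈ A, ∀ m < M, dist (Q^[m] y) (Q^[m] b) ≤ ε

open Pool.Agent.H203.ME Pool.Agent.H493.EN

lemma wd_eq {a b s : ℝ} (hab : a ≤ b) (hs : 0 < s) (σ x : ℝ) :
    wd a b s σ x = (Ioc (a * s) (b * s)).indicator (fun _ => (1 : ℝ)) x / σ := by
  have h1 : a * s ≤ b * s := mul_le_mul_of_nonneg_right hab hs.le
  rw [wd_apply]
  congr 1
  by_cases h2 : a * s < x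
  · rw [indicator_of_mem (show x ∈ Ioi (a * s) from h2)]
    by_cases h3 : b * s < x
    · rw [indicator_of_mem (show x ∈ Ioi (b * s) from h3), indicator_of_notMem (fun h => not_lt.2 h.2 h3), sub_self]
    · rw [indicator_of_notMem (show x ∉ Ioi (b * s) from h3), indicator_of_mem (show x ∈ Ioc (a * s) (b * s) from
        ⟨h2, not_lt.1 h3⟩), sub_zero]
  · rw [indicator_of_notMem (show x ∉ Ioi (a * s) from h2), indicator_of_notMem (show x ∉ Ioi (b * s) from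
      fun h => h2 (lt_of_le_of_lt h1 h)), indicator_of_notMem (fun h => h2 h.1), sub_zero]

lemma norm_eq {a b s : ℝ} (hab : a ≤ b) (hs : 0 < s) (ha : |a * s| ≤ 1 / 2) (hb : |b * s| ≤ 1 / 2) {T t : ℝ}
    (ht : 10 ≤ t) : XF (wd a b s (sgm s T)) T t = norm a b s T t := by
  have h1 : a * s ≤ b * s := mul_le_mul_of_nonneg_right hab hs.le
  rw [wd, STCL.XF_eq' (STCL.F0_v wd_sum (wd_small ha hb)) (U1 := t - 2) (U2 := t + 2) (by linarith) (by linarith)
    (by linarith)]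
  have e1 : ∀ x, F0 ![a, b] ![1, -1] s (sgm s T) x = (Ioc (a * s) (b * s)).indicator (fun _ => (1 : ℝ)) x / sgm s T :=
    fun x => wd_eq hab hs _ x
  simp_rw [e1]
  rw [integral_div, integral_indicator_const _ measurableSet_Ioc, smul_eq_mul, mul_one]
  have e2 : (volume : Measure ℝ).real (Ioc (a * s) (b * s)) = (b - a) * s := by
    rw [Measure.real, Real.volume_Ioc, ENNReal.toReal_ofReal (by linarith)]
    ring
  rw [e2]
  have hZ : ∀ z : ℂ, z ∈ H370.Zf riemannZeta (t - 2) (t + 2) ↔ z ∈ H370.zset riemannZeta (t - 2) (t + 2) := fun z =>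
    H370.mem_Zf H370.good_zeta (by linarith)
  have e3 : (count (t + a * s) (t + b * s) : ℝ) =
      ∑ z ∈ H370.Zf riemannZeta (t - 2) (t + 2), (mz z : ℝ) * (Ioc (a * s) (b * s)).indicator (fun _ => (1 : ℝ)) (z.im - t) := by
    have e4 : count (t + a * s) (t + b * s) = ∑ z ∈ H370.Zf riemannZeta (t - 2) (t + 2),
        (if t + a * s < z.im ∧ z.im ≤ t + b * s then mult z else 0) := by
      unfold count
      rw [← Finset.sum_filter]
      apply finsum_mem_eq_sum_of_inter_support_eq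
      ext z
      simp only [mem_inter_iff, Function.mem_support, Finset.coe_filter, Set.mem_ofPred_eq, hZ]
      constructor
      · rintro ⟨⟨⟨ha', hb', hc'⟩, hd'⟩, he'⟩
        refine ⟨⟨⟨hb', hc', ?_, ?_, ha'⟩, hd'⟩, he'⟩
        · have := (abs_le.1 ha).1
          linarith [hd'.1]
        · have := (abs_le.1 hb).2
          linarith [hd'.2]
      · rintro ⟨⟨⟨ha', hb', hc', hd', he'⟩, hf'⟩, hg'⟩
        exact ⟨⟨⟨he', ha', hb'⟩, hf'⟩, hg'⟩
    rw [e4]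
    push_cast
    refine Finset.sum_congr rfl fun z _ => ?_
    by_cases h : t + a * s < z.im ∧ z.im ≤ t + b * s
    · rw [if_pos h, indicator_of_mem (show z.im - t ∈ Ioc (a * s) (b * s) from ⟨by linarith [h.1], by linarith [h.2]⟩),
        mul_one]
      rfl
    · rw [if_neg h, indicator_of_notMem (fun h2 => h ⟨by linarith [h2.1], by linarith [h2.2]⟩), mul_zero]
  unfold norm
  rw [e3, sub_div, Finset.sum_div]
  congr 1
  · exact Finset.sum_congr rfl fun z _ => by rw [mul_div_assoc]; rfl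
  · unfold sgm
    ring

lemma fluct_eq {k : ℕ} {a b : Fin k → ℝ} (hab : ∀ j, a j ≤ b j) (ψ : EuclideanSpace ℝ (Fin k) → ℝ) {s : ℝ}
    (hs : 0 < s) (ha : ∀ j, |a j * s| ≤ 1 / 2) (hb : ∀ j, |b j * s| ≤ 1 / 2) (T : ℝ) {t : ℝ} (ht : 10 ≤ t) :
    Yg (Xc a b) (Matrix.of (cw2 a b)) ψ s T t = fluct a b ψ s T t := by
  have h1 : Xc a b s T t = field a b s T t := by
    unfold Xc field
    congr 1
    funext j
    exact norm_eq (hab j) hs (ha j) (hb j) ht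
  unfold Yg fluct
  rw [h1]
  rfl

/-- the constant which makes the end points small -/
noncomputable def K₀ {k : ℕ} (a b : Fin k → ℝ) : ℝ := 10 + 2 * ∑ j, |a j| + 2 * ∑ j, |b j|

lemma K₀_le {k : ℕ} (a b : Fin k → ℝ) {K s : ℝ} (hK : K₀ a b ≤ K) (hs0 : 0 < s) (hs : s ≤ 1 / K) :
    (∀ j, |a j * s| ≤ 1 / 2) ∧ ∀ j, |b j * s| ≤ 1 / 2 := by
  have hA : 0 ≤ ∑ j, |a j| := Finset.sum_nonneg fun j _ => abs_nonneg _
  have hB : 0 ≤ ∑ j, |b j| := Finset.sum_nonneg fun j _ => abs_nonneg _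
  unfold K₀ at hK
  have hKp : 0 < K := by linarith
  rw [le_div_iff₀ hKp] at hs
  have h1 : ∀ x : ℝ, 2 * |x| ≤ K → |x * s| ≤ 1 / 2 := by
    intro x hx
    rw [abs_mul, abs_of_pos hs0]
    nlinarith
  refine ⟨fun j => h1 _ ?_, fun j => h1 _ ?_⟩
  · have := Finset.single_le_sum (f := fun j => |a j|) (fun j _ => abs_nonneg _) (Finset.mem_univ j)
    linarith
  · have := Finset.single_le_sum (f := fun j => |b j|) (fun j _ => abs_nonneg _) (Finset.mem_univ j)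
    linarith

lemma pos_of {K T s : ℝ} (hK : 1 ≤ K) (hT : K ≤ T) (h : K ≤ s * Real.log T) : 0 < s := by
  by_contra h1
  push Not at h1
  have h2 : 0 ≤ Real.log T := Real.log_nonneg (hK.trans hT)
  nlinarith

/-- enlarging the constant -/
lemma enlarge {k : ℕ} (a b : Fin k → ℝ) (hab : ∀ j, a j ≤ b j) {ψ : EuclideanSpace ℝ (Fin k) → ℝ} {K : ℝ}
    (hK : 1 ≤ K) {T s : ℝ} (hT : max K (K₀ a b) ≤ T) (h1 : max K (K₀ a b) ≤ s * Real.log T)
    (h2 : s ≤ 1 / max K (K₀ a b)) : K ≤ T ∧ K ≤ s * Real.log T ∧ s ≤ 1 / K ∧ 0 < s ∧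
      ∀ t, T ≤ t → Yg (Xc a b) (Matrix.of (cw2 a b)) ψ s T t = fluct a b ψ s T t := by
  have hs := pos_of (hK.trans (le_max_left _ _)) hT h1
  obtain ⟨h3, h4⟩ := K₀_le a b (le_max_right K (K₀ a b)) hs h2
  have hA : 0 ≤ ∑ j, |a j| := Finset.sum_nonneg fun j _ => abs_nonneg _
  have hB : 0 ≤ ∑ j, |b j| := Finset.sum_nonneg fun j _ => abs_nonneg _
  have hT2 : K₀ a b ≤ T := (le_max_right _ _).trans hT
  unfold K₀ at hT2
  exact ⟨(le_max_left _ _).trans hT, (le_max_left _ _).trans h1,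
    h2.trans (one_div_le_one_div_of_le (by linarith) (le_max_left _ _)), hs,
    fun t ht => fluct_eq hab ψ hs h3 h4 T (by linarith)⟩

/-- the entropy bound is sharp up to a constant -/
lemma sharp (κ : ℝ) (hκ : 0 < κ) (hκ1 : κ ≤ 1) : ∃ M₀ : ℕ, Mesoscopic fun T s =>
    ∃ θ : ℝ → ℂ, Measurable θ ∧ (∀ t, ‖θ t‖ ≤ 1) ∧ (∀ M : ℕ, M₀ ≤ M → Follows T s M κ 0 θ) ∧
      Real.sqrt κ / 2 * T ≤ ‖∫ t in T..(2 * T), θ t * (norm 0 1 s T t : ℂ)‖ := by
  obtain ⟨M₀, K, hK, h1⟩ := low t_BLK t_GLB p_CHF p_SCF t_CPS hκ hκ1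
  refine ⟨M₀, max K 10, hK.trans (le_max_left _ _), fun T hT s hs1 hs2 => ?_⟩
  have hK0 : 0 < K := by linarith
  have hT10 : 10 ≤ T := (le_max_right _ _).trans hT
  have hs := pos_of (hK.trans (le_max_left _ _)) hT hs1
  obtain ⟨θ, hθ, hθ1, hθ2, hθ3⟩ := h1 T ((le_max_left _ _).trans hT) s ((le_max_left _ _).trans hs1)
    (hs2.trans (one_div_le_one_div_of_le hK0 (le_max_left _ _)))
  refine ⟨θ, hθ, hθ1, hθ2, hθ3.trans (le_of_eq ?_)⟩
  congr 1
  refine intervalIntegral.integral_congr fun t ht => ?_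
  rw [uIcc_of_le (by linarith)] at ht
  have hs10 : s ≤ 1 / 10 := hs2.trans (one_div_le_one_div_of_le (by norm_num) (le_max_right _ _))
  rw [norm_eq zero_le_one hs (by rw [zero_mul, abs_zero]; norm_num) (by
    rw [one_mul, abs_of_pos hs]
    linarith) (by linarith [ht.1])]

/-- **Numbers of zeros in mesoscopic windows are orthogonal to deterministic sequences.** -/
theorem result {k : ℕ} (hk : 0 < k) (a b : Fin k → ℝ) (hab : ∀ j, a j < b j) :
    (Matrix.of (cov a b)).PosSemidef ∧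
    -- 1. exponential inequality
    (∀ (ψ : EuclideanSpace ℝ (Fin k) → ℝ) (L : ℝ≥0), 0 < L → LipschitzWith L ψ →
      ∀ (M : ℕ) (ε : ℝ), 1 ≤ M → 0 < ε → Mesoscopic fun T s =>
      ∀ P : Finset (ℕ → ℂ), (∀ p ∈ P, ∀ m, ‖p m‖ ≤ 1) → volume {t | t ∈ Icc T (2 * T) ∧ ∃ p ∈ P,
        ε * M ≤ ‖∑ m ∈ Finset.range M, p m * (fluct a b ψ s T (t + m * s) : ℂ)‖} ≤
      ENNReal.ofReal (5 * P.card * Real.exp (-(ε ^ 2 * M / (64 * Real.pi ^ 2 * k * L ^ 2))) * T)) ∧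
    -- 2. entropy bound
    (∀ (ψ : EuclideanSpace ℝ (Fin k) → ℝ) (L : ℝ≥0), 0 < L → LipschitzWith L ψ →
      ∀ κ ε : ℝ, 0 ≤ κ → 0 < ε → ∃ (δ : ℝ) (M₀ : ℕ), 0 < δ ∧ ∀ M : ℕ, M₀ ≤ M → Mesoscopic fun T s =>
      ∀ θ : ℝ → ℂ, Measurable θ → (∀ t, ‖θ t‖ ≤ 1) → Follows T s M κ δ θ →
        ‖∫ t in T..(2 * T), θ t * (fluct a b ψ s T t : ℂ)‖ ≤ (8 * Real.pi * L * Real.sqrt (k * κ) + ε) * T) ∧
    -- 3. zero entropy
    (∀ (ψ : EuclideanSpace ℝ (Fin k) → ℝ) (C : ℝ), Continuous ψ → (∀ x, |ψ x| ≤ C * (1 + ‖x‖ ^ 2)) →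
      ∀ ε : ℝ, 0 < ε → ∃ (κ δ : ℝ) (M₀ : ℕ), 0 < κ ∧ 0 < δ ∧ ∀ M : ℕ, M₀ ≤ M → Mesoscopic fun T s =>
      ∀ θ : ℝ → ℂ, Measurable θ → (∀ t, ‖θ t‖ ≤ 1) → Follows T s M κ δ θ →
        ‖∫ t in T..(2 * T), θ t * (fluct a b ψ s T t : ℂ)‖ ≤ ε * T) ∧
    -- 4. systems of zero entropy, with a new point on every window
    (∀ (ψ : EuclideanSpace ℝ (Fin k) → ℝ) (C : ℝ), Continuous ψ → (∀ x, |ψ x| ≤ C * (1 + ‖x‖ ^ 2)) →
      ∀ (Y : Type) [MetricSpace Y] [CompactSpace Y] (Q : Y → Y), ZeroEntropy Q → ∀ F : Y → ℂ, Continuous F →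
      ∀ ε : ℝ, 0 < ε → ∃ K : ℝ, 1 ≤ K ∧ ∀ T : ℝ, K ≤ T → ∀ s : ℝ, K ≤ s * Real.log T → s ≤ 1 / K →
      ∀ (n : ℕ) (c : ℕ → ℝ) (y : ℕ → Y), K * (n * s) ≤ T → T ≤ c 0 → c n ≤ 2 * T → (∀ i < n, c i ≤ c (i + 1)) →
        ∑ i ∈ Finset.range n, ‖∫ t in (c i)..(c (i + 1)), F (Q^[⌊t / s⌋₊] (y i)) * (fluct a b ψ s T t : ℂ)‖ ≤
          ε * T) ∧
    -- 5. systems of zero entropy, along arithmetic progressions
    (∀ (ψ : EuclideanSpace ℝ (Fin k) → ℝ) (C : ℝ), Continuous ψ → (∀ x, |ψ x| ≤ C * (1 + ‖x‖ ^ 2)) →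
      ∀ (Y : Type) [MetricSpace Y] [CompactSpace Y] (Q : Y → Y), ZeroEntropy Q → ∀ F : Y → ℂ, Continuous F →
      ∀ ε : ℝ, 0 < ε → Mesoscopic fun T s => ∀ y : Y,
        ∫ x in (0 : ℝ)..1, ‖∑ n ∈ Finset.Ico ⌈T / s⌉₊ ⌊2 * T / s⌋₊,
          F (Q^[n] y) * (fluct a b ψ s T ((n + x) * s) : ℂ)‖ ≤ ε * (T / s)) ∧
    -- 6. slowly varying functions
    (∀ (ψ : EuclideanSpace ℝ (Fin k) → ℝ) (C : ℝ), Continuous ψ → (∀ x, |ψ x| ≤ C * (1 + ‖x‖ ^ 2)) →
      ∀ ε : ℝ, 0 < ε → ∃ K : ℝ, 1 ≤ K ∧ ∀ T : ℝ, K ≤ T → ∀ s : ℝ, K ≤ s * Real.log T → s ≤ 1 / K →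
      ∀ θ : ℝ → ℂ, Measurable θ → (∀ t, ‖θ t‖ ≤ 1) → ∫ t in T..(2 * T), ‖θ (t + s) - θ t‖ ≤ T / K →
        ‖∫ t in T..(2 * T), θ t * (fluct a b ψ s T t : ℂ)‖ ≤ ε * T) ∧
    -- 7. sharpness
    (∀ κ : ℝ, 0 < κ → κ ≤ 1 → ∃ M₀ : ℕ, Mesoscopic fun T s =>
      ∃ θ : ℝ → ℂ, Measurable θ ∧ (∀ t, ‖θ t‖ ≤ 1) ∧ (∀ M : ℕ, M₀ ≤ M → Follows T s M κ 0 θ) ∧
        Real.sqrt κ / 2 * T ≤ ‖∫ t in T..(2 * T), θ t * (norm 0 1 s T t : ℂ)‖) := by
  have hG := cnt_Gs t_CPS t_CQF hk a b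
  have hX := cnt_Fam p_CHF p_SCF t_CPS a b
  have hab' : ∀ j, a j ≤ b j := fun j => (hab j).le
  have hk0 : (0 : ℝ) < k := by exact_mod_cast hk
  have hcongr : ∀ (ψ : EuclideanSpace ℝ (Fin k) → ℝ) (θ : ℝ → ℂ) (T s u v : ℝ), T ≤ u → u ≤ v →
      (∀ t, T ≤ t → Yg (Xc a b) (Matrix.of (cw2 a b)) ψ s T t = fluct a b ψ s T t) →
      ∫ t in u..v, θ t * (Yg (Xc a b) (Matrix.of (cw2 a b)) ψ s T t : ℂ) =
        ∫ t in u..v, θ t * (fluct a b ψ s T t : ℂ) := by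
    intro ψ θ T s u v hu huv h
    refine intervalIntegral.integral_congr fun t ht => ?_
    rw [uIcc_of_le huv] at ht
    rw [h t (hu.trans ht.1)]
  refine ⟨hG.psd1, ?_, ?_, ?_, ?_, ?_, ?_, sharp⟩
  · intro ψ L hL hψ M ε hM hε
    obtain ⟨K, hK, h1⟩ := expoU hG hX hM hL hψ hε
    refine ⟨max K (K₀ a b), hK.trans (le_max_left _ _), fun T hT s hs1 hs2 P hP => ?_⟩
    obtain ⟨k1, k2, k3, k4, k5⟩ := enlarge a b hab' (ψ := ψ) hK hT hs1 hs2
    have h2 := h1 T k1 s k2 k3 P hP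
    have e1 : (64 * Real.pi ^ 2 * k * (L : ℝ) ^ 2) = 32 * Real.pi ^ 2 * L ^ 2 * (2 * k) := by ring
    rw [e1]
    refine le_trans (measure_mono ?_) h2
    rintro t ⟨ht, p, hp, hq⟩
    refine ⟨ht, p, hp, ?_⟩
    have e2 : ∑ m ∈ Finset.range M, p m * ((Yg (Xc a b) (Matrix.of (cw2 a b)) ψ s T (t + m * s) : ℝ) : ℂ) =
        ∑ m ∈ Finset.range M, p m * (fluct a b ψ s T (t + m * s) : ℂ) := by
      refine Finset.sum_congr rfl fun m _ => ?_
      have : 0 ≤ (m : ℝ) * s := by positivity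
      rw [k5 _ (by linarith [ht.1])]
    rw [e2]
    exact hq
  · intro ψ L hL hψ κ ε hκ hε
    obtain ⟨δ, M₀, hδ, h0⟩ := entU hG hX hL hψ hκ hε
    refine ⟨δ, M₀, hδ, fun M hM => ?_⟩
    obtain ⟨K, hK, h1⟩ := h0 M hM
    refine ⟨max K (K₀ a b), hK.trans (le_max_left _ _), fun T hT s hs1 hs2 θ hθ hθ1 hθ2 => ?_⟩
    obtain ⟨k1, k2, k3, k4, k5⟩ := enlarge a b hab' (ψ := ψ) hK hT hs1 hs2
    have h2 := h1 T k1 s k2 k3 θ hθ hθ1 hθ2
    rw [hcongr ψ θ T s T (2 * T) le_rfl (by linarith) k5] at h2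
    refine h2.trans (le_of_eq ?_)
    have e1 : 32 * Real.pi ^ 2 * (2 * k) * κ = (8 * Real.pi) ^ 2 * (k * κ) := by ring
    rw [e1, Real.sqrt_mul (by positivity), Real.sqrt_sq (by positivity)]
    ring
  · intro ψ C hψ hC ε hε
    obtain ⟨κ, δ, M₀, hκ, hδ, h0⟩ := zeroU hG hX hψ hC hε
    refine ⟨κ, δ, M₀, hκ, hδ, fun M hM => ?_⟩
    obtain ⟨K, hK, h1⟩ := h0 M hM
    refine ⟨max K (K₀ a b), hK.trans (le_max_left _ _), fun T hT s hs1 hs2 θ hθ hθ1 hθ2 => ?_⟩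
    obtain ⟨k1, k2, k3, k4, k5⟩ := enlarge a b hab' (ψ := ψ) hK hT hs1 hs2
    have h2 := h1 T k1 s k2 k3 θ hθ hθ1 hθ2
    rw [hcongr ψ θ T s T (2 * T) le_rfl (by linarith) k5] at h2
    exact h2
  · intro ψ C hψ hC Y _ _ Q hQ F hF ε hε
    obtain ⟨K, hK, h1⟩ := momoU hG hX hψ hC hQ hF hε
    refine ⟨max K (K₀ a b), hK.trans (le_max_left _ _), fun T hT s hs1 hs2 n c y hn hc0 hcn hc => ?_⟩
    obtain ⟨k1, k2, k3, k4, k5⟩ := enlarge a b hab' (ψ := ψ) hK hT hs1 hs2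
    have hn0 : 0 ≤ (n : ℝ) * s := by positivity
    have h2 := h1 T k1 s k2 k3 n c y ((mul_le_mul_of_nonneg_right (le_max_left _ _) hn0).trans hn) hc0 hcn hc
    refine le_trans (le_of_eq (Finset.sum_congr rfl fun i hi => ?_)) h2
    have hi' := Finset.mem_range.1 hi
    rw [hcongr ψ _ T s (c i) (c (i + 1)) (hc0.trans (a_mono hc 0 i (Nat.zero_le _) hi'.le)) (hc i hi') k5]
  · intro ψ C hψ hC Y _ _ Q hQ F hF ε hε
    obtain ⟨K, hK, h1⟩ := offU hG hX hψ hC hQ hF hε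
    refine ⟨max K (K₀ a b), hK.trans (le_max_left _ _), fun T hT s hs1 hs2 y => ?_⟩
    obtain ⟨k1, k2, k3, k4, k5⟩ := enlarge a b hab' (ψ := ψ) hK hT hs1 hs2
    have h2 := h1 T k1 s k2 k3 y
    refine le_trans (le_of_eq ?_) h2
    refine intervalIntegral.integral_congr fun x hx => ?_
    rw [uIcc_of_le zero_le_one] at hx
    congr 1
    refine Finset.sum_congr rfl fun n hn => ?_
    have h3 : T / s ≤ n := Nat.ceil_le.1 (Finset.mem_Ico.1 hn).1
    rw [div_le_iff₀ k4] at h3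
    have h4 : 0 ≤ x * s := mul_nonneg hx.1 k4.le
    rw [k5 _ (by rw [add_mul]; linarith)]
  · intro ψ C hψ hC ε hε
    obtain ⟨K, hK, h1⟩ := slowU hG hX hψ hC hε
    refine ⟨max K (K₀ a b), hK.trans (le_max_left _ _), fun T hT s hs1 hs2 θ hθ hθ1 hθ2 => ?_⟩
    obtain ⟨k1, k2, k3, k4, k5⟩ := enlarge a b hab' (ψ := ψ) hK hT hs1 hs2
    have hT0 : 0 ≤ T := by linarith
    have h2 := h1 T k1 s k2 k3 θ hθ hθ1 (hθ2.trans (div_le_div_of_nonneg_left hT0 (by linarith) (le_max_left _ _)))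
    rw [hcongr ψ θ T s T (2 * T) le_rfl (by linarith) k5] at h2
    exact h2

end Pool.Agent.Results.MP_00e05b_nt.DeterministicSampling
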