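import Pool.Agent.H481.FF4

/-!
# What do correlations of finite range say about the form factor `F(α)` beyond the range?

The strong pair correlation conjecture says `F(α, T) → 1` for all `α ≥ 1`, while `F` is known for
`|α| < 1`; more generally all correlations of the zeros of `ζ` (of all levels) are known in this
range of frequencies (Montgomery; Hejhal; Rudnick and Sarnak).  In the unitary model, with `N` points
`z_1, …, z_N` of the unit circle instead of the zeros, the correlations of range `R` are the means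
`E[F(z) conj G(z)]` for the polynomials `F`, `G` of total degree at most `R`, and the prediction is
their value for the eigenvalues of a Haar distributed unitary `N × N` matrix.  The known range is
`R = N`.  The form factor is `K(k) = E |z_1^k + … + z_N^k|²`, `k` corresponds to `α = k / N` and
`K(k) / N` to `F(α)`; the prediction is `K(k) = min(k, N)`.

Suppose that all correlations of the range `R` are as predicted.  What follows for `K(k)`?

* `K(k) = min(k, N)` for `1 ≤ k ≤ R`.
* Nothing at all for `k ≥ N + R`: the vector `(z_1^k, …, z_N^k)` can have ANY law on the torus.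
  In particular `K(k)` can have any value between `0` and `N²`.
* For `R < k < N + R` (and `k ≥ N`) the form factor is not determined either: it can have all
  values between `N + R - k` and `N + (k - R) / (N - 1)`.
* But the averages over windows are right: for `N ≤ L ≤ R + 1` the Fejér average of length `2 L` of
  `K` around ANY frequency `k ∈ ℤ` differs from `N` by at most `N (N² - 1) / (3 L²)`.
  With `L = R + 1`, `λ = R / N` this is a relative error of at most `1 / (3 λ²)`.
* This error bound is sharp: for each `k ≥ N + R` there are random points with the predicted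
  correlations of range `R` with equality for all such `L`.

So the strong pair correlation conjecture for `α ≤ A` does not follow from the correlations of all
levels in any range less than `A`; each `F(α)` with `α ≥ 1 + λ` is independent of everything in the
range `λ`, and only the averages of `F` over intervals of a length of the order `λ` are controlled.

Construction: for a unimodular vector `u` take the law `|Δ(z)|²` on the product of the cosets
`{z_i : z_i^k = u_i}` of the group of the `k`-th roots of unity; the quadrature is exact for all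
polynomials of a degree below `k` in each variable.
-/

open MeasureTheory

namespace Pool.Agent.Results.MP_00e05b_nt.FormFactorBeyondRange

/-- the mean of `f` over the eigenvalues `z = (e^{iθ_1}, …, e^{iθ_N})` of a Haar distributed
unitary `N × N` matrix (Weyl's formula):
`(N! (2π)^N)⁻¹ ∫_{(0, 2π]^N} f(z) ∏_{i < j} |z_j - z_i|² dθ` -/
noncomputable def haarMean (N : ℕ) (f : (Fin N → ℂ) → ℂ) : ℂ :=
  ((N.factorial : ℂ) * (2 * Real.pi) ^ N)⁻¹ *
    ∫ θ in Set.univ.pi fun _ : Fin N => Set.Ioc (0 : ℝ) (2 * Real.pi),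
      f (fun j => Complex.exp (Complex.I * θ j)) *
        ((∏ i : Fin N, ∏ j ∈ Finset.Ioi i,
          ‖Complex.exp (Complex.I * θ j) - Complex.exp (Complex.I * θ i)‖ ^ 2 : ℝ) : ℂ)

/-- `ν` is a law of `N` points on the unit circle with the correlations of range `R` of the
eigenvalues of a Haar distributed unitary `N × N` matrix: the means `E[F(z) conj G(z)]` are the
same, for all polynomials `F`, `G` of total degree at most `R` -/
structure Agrees (N R : ℕ) (ν : Measure (Fin N → ℂ)) : Prop where
  prob : IsProbabilityMeasure ν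
  unit : ∀ᵐ z ∂ν, ∀ i, ‖z i‖ = 1
  moments : ∀ F G : MvPolynomial (Fin N) ℂ, F.totalDegree ≤ R → G.totalDegree ≤ R →
    ∫ z, MvPolynomial.eval z F * (starRingEnd ℂ) (MvPolynomial.eval z G) ∂ν =
      haarMean N (fun z => MvPolynomial.eval z F * (starRingEnd ℂ) (MvPolynomial.eval z G))

/-- the form factor `E |z_1^k + … + z_N^k|²` -/
noncomputable def formFactor {N : ℕ} (ν : Measure (Fin N → ℂ)) (k : ℤ) : ℝ :=
  ∫ z, ‖∑ i, z i ^ k‖ ^ 2 ∂ν

/-- the Fejér average of the form factor over the window `(k - L, k + L)`: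
`L⁻² ∑_{0 ≤ a, b < L} K(k + a - b) = ∑_{|j| < L} (L - |j|) K(k + j) / L²` -/
noncomputable def average {N : ℕ} (ν : Measure (Fin N → ℂ)) (L : ℕ) (k : ℤ) : ℝ :=
  (∑ a ∈ Finset.range L, ∑ b ∈ Finset.range L, formFactor ν (k + a - b)) / (L : ℝ) ^ 2

/-- **Theorem.** Let `N ≥ 2` and `R ≥ 0`.
(0) For the unitary group the form factor is `min(k, N)`, `k ≥ 1`.
(1) It is `min(k, N)` for `1 ≤ k ≤ R` for all laws with the correlations of range `R`.
(2) For `k ≥ N + R` and every law `μ` on the torus there is a law with the correlations of range `R`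
for which `(z_1^k, …, z_N^k)` has the law `μ`.
(3) For `max(N, R + 1) ≤ k < N + R` and every `y` between `N + R - k` and `N + (k - R) / (N - 1)`
there is a law with the correlations of range `R` with the form factor `y` at `k`.
(4) For all laws with the correlations of range `R`, all `N ≤ L ≤ R + 1` and all integers `k` the
Fejér average of the form factor over the window `(k - L, k + L)` differs from `N` by at most
`N (N² - 1) / (3 L²)`.
(5) For every `k ≥ N + R` there is a law with the correlations of range `R` for which this average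
is `N + N (N² - 1) / (3 L²)` for all `N ≤ L ≤ R + 1`. -/
theorem result (N R : ℕ) (hN : 2 ≤ N) :
    (∀ k : ℕ, 1 ≤ k → haarMean N (fun z => ((‖∑ i, z i ^ k‖ ^ 2 : ℝ) : ℂ)) = (min k N : ℕ)) ∧
    (∀ ν : Measure (Fin N → ℂ), Agrees N R ν → ∀ k : ℕ, 1 ≤ k → k ≤ R →
      formFactor ν k = (min k N : ℕ)) ∧
    (∀ k : ℕ, N + R ≤ k → ∀ μ : Measure (Fin N → ℂ), IsProbabilityMeasure μ →
      (∀ᵐ u ∂μ, ∀ i, ‖u i‖ = 1) →
      ∃ ν : Measure (Fin N → ℂ), Agrees N R ν ∧
        Measure.map (fun z : Fin N → ℂ => fun i => z i ^ k) ν = μ) ∧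
    (∀ k : ℕ, N ≤ k → R < k → k < N + R → ∀ y : ℝ, (N : ℝ) + R - k ≤ y →
      y ≤ N + ((k : ℝ) - R) / (N - 1) →
      ∃ ν : Measure (Fin N → ℂ), Agrees N R ν ∧ formFactor ν k = y) ∧
    (∀ ν : Measure (Fin N → ℂ), Agrees N R ν → ∀ L : ℕ, N ≤ L → L ≤ R + 1 → ∀ k : ℤ,
      |average ν L k - N| ≤ (N : ℝ) * ((N : ℝ) ^ 2 - 1) / (3 * (L : ℝ) ^ 2)) ∧
    (∀ k : ℕ, N + R ≤ k → ∃ ν : Measure (Fin N → ℂ), Agrees N R ν ∧
      ∀ L : ℕ, N ≤ L → L ≤ R + 1 →
        average ν L k = N + (N : ℝ) * ((N : ℝ) ^ 2 - 1) / (3 * (L : ℝ) ^ 2)) := by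
  have hN0 : 0 < N := by omega
  refine ⟨?_, ?_, ?_, ?_, ?_, ?_⟩
  · intro k hk
    have h := Pool.Agent.H481.SB.form_factor hN0 hk
    have e : ∀ z : Fin N → ℂ, ((‖∑ i, z i ^ k‖ ^ 2 : ℝ) : ℂ) =
        MvPolynomial.eval z (MvPolynomial.psum (Fin N) ℂ k) *
          (starRingEnd ℂ) (MvPolynomial.eval z (MvPolynomial.psum (Fin N) ℂ k)) := by
      intro z
      rw [Pool.Agent.R319.UM.eval_psum, Complex.mul_conj, Complex.normSq_eq_norm_sq]
    rw [← h]
    simp only [e]
    rfl
  · intro ν hν k hk hkR
    exact Pool.Agent.H481.FF.inside hN0 hν.moments hk hkR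
  · intro k hk μ hμ hμ1
    refine ⟨Pool.Agent.H481.FF.mlaw μ k, ⟨?_, ?_, ?_⟩, ?_⟩
    · exact Pool.Agent.H481.FF.mlaw_prob hN0 (by omega)
    · exact Pool.Agent.H481.FF.mlaw_unit μ k
    · exact fun F G hF hG => Pool.Agent.H481.FF.mlaw_mom hN0 hk F G hF hG
    · exact Pool.Agent.H481.FF.mlaw_map hN0 (by omega) hμ1
  · intro k hNk hRk hkR y h0 h1
    obtain ⟨ν, a1, a2, a3, a4⟩ := Pool.Agent.H481.FF.between hN hNk hRk hkR h0 h1
    exact ⟨ν, ⟨a1, a2, a3⟩, a4⟩
  · intro ν hν L hNL hLR k
    have := hν.prob
    exact Pool.Agent.H481.FF.avg_near hN0 hNL hLR hν.unit hν.moments k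
  · intro k hk
    have hc : ∀ i : Fin N, ‖(fun _ : Fin N => (1 : ℂ)) i‖ = 1 := fun _ => norm_one
    have hp := Pool.Agent.H481.FF.claw_prob hN0 hc (show N ≤ k by omega)
    refine ⟨Pool.Agent.H481.FF.claw (fun _ : Fin N => (1 : ℂ)) k, ⟨hp, ?_, ?_⟩, ?_⟩
    · exact Pool.Agent.H481.FF.claw_unit hc k
    · exact fun F G hF hG => Pool.Agent.H481.FF.claw_mom hN0 hc hk F G hF hG
    · intro L hNL hLR
      refine Pool.Agent.H481.FF.avg_grid hN0 hNL hLR
        (Pool.Agent.H481.FF.claw_unit hc k)
        (fun F G hF hG => Pool.Agent.H481.FF.claw_mom hN0 hc hk F G hF hG) ?_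
      filter_upwards [Pool.Agent.H481.FF.claw_pow (fun _ : Fin N => (1 : ℂ))
        (show 0 < k by omega)] with z hz i
      rw [hz i, one_pow]

end Pool.Agent.Results.MP_00e05b_nt.FormFactorBeyondRange
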