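import Pool.Agent.H523.CM70

set_option autoImplicit false

/-!
# The pair correlation of the zeros modulo a prime polynomial, beyond the diagonal range

The question in the polynomial ring over a finite field with `q` elements: the zeros of all the
Dirichlet `L`-functions modulo a prime polynomial `Q` of degree `d`; `log T` is replaced by
`d log q` and `T ^ α` by `q ^ m`, `α = m / d`.
-/

namespace Pool.Agent.Results.MP_00e05b_nt.FormFactorPrimeModuli

open Polynomial Filter
open Pool.Agent.H341R2.Sharp (Mon mem_Mon)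
open Pool.Agent.H523.FF (Ir mem_Ir two_le_card)
open Pool.Agent.H523

/-- the `L`-function `L(u, χ)`, `u = q ^ (-s)`, of a character `χ` modulo `Q`: the sum of
`χ f * u ^ deg f` over the monic `f` of degree less than `deg Q` (for `χ` nonprincipal the monic
polynomials of each larger degree contribute zero) -/
noncomputable def L {F : Type} [Field F] (Q : F[X]) (χ : MulChar (AdjoinRoot Q) ℂ) : ℂ[X] :=
  ∑ k ∈ Finset.range Q.natDegree,
    C (∑ᶠ f ∈ {f : F[X] | f.Monic ∧ f.natDegree = k}, χ (AdjoinRoot.mk Q f)) * X ^ k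

open scoped Classical in
/-- the zeros `u` of `L(u, χ)` on the critical circle `|u| = q ^ (-1/2)`, with multiplicities -/
noncomputable def zeros {F : Type} [Field F] [Fintype F] (Q : F[X])
    (χ : MulChar (AdjoinRoot Q) ℂ) : Multiset ℂ :=
  (L Q χ).roots.filter (fun u => ‖u‖ = (√(Fintype.card F : ℝ))⁻¹)

/-- the power sum `∑ (√q * u) ^ (-m)` over the zeros `u` of `L(u, χ)` on the critical circle, that
is `∑ e(m θ)` if the zeros are `u = q ^ (-1/2) * e(-θ)` -/
noncomputable def powerSum {F : Type} [Field F] [Fintype F] (Q : F[X])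
    (χ : MulChar (AdjoinRoot Q) ℂ) (m : ℕ) : ℂ :=
  ((zeros Q χ).map (fun u => (((√(Fintype.card F : ℝ) : ℝ) : ℂ) * u)⁻¹ ^ m)).sum

/-- the mean over the nonprincipal characters modulo `Q` -/
noncomputable def mean {F : Type} [Field F] (Q : F[X]) (g : MulChar (AdjoinRoot Q) ℂ → ℝ) : ℝ :=
  (∑ᶠ χ ∈ {χ : MulChar (AdjoinRoot Q) ℂ | χ ≠ 1}, g χ) /
    ({χ : MulChar (AdjoinRoot Q) ℂ | χ ≠ 1}.ncard : ℝ)

/-- the mean of `|∑ e(m θ)| ^ 2`, a sum over the pairs of zeros of one `L`-function -/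
noncomputable def meanSquare {F : Type} [Field F] [Fintype F] (Q : F[X]) (m : ℕ) : ℝ :=
  mean Q (fun χ => ‖powerSum Q χ m‖ ^ 2)

/-- the mean number of the zeros on the critical circle -/
noncomputable def meanNumber {F : Type} [Field F] [Fintype F] (Q : F[X]) : ℝ :=
  mean Q (fun χ => ((zeros Q χ).card : ℝ))

lemma L_eq {F : Type} [Field F] [Fintype F] (Q : F[X]) (χ : MulChar (AdjoinRoot Q) ℂ) :
    L Q χ = CM.Lp Q χ := by
  classical
  unfold L CM.Lp
  refine Finset.sum_congr rfl (fun k _ => ?_)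
  congr 2
  have h : {f : F[X] | f.Monic ∧ f.natDegree = k} = ((Mon F k : Finset F[X]) : Set F[X]) := by
    ext f
    rw [Set.mem_ofPred_eq, Finset.mem_coe, mem_Mon]
  rw [h, finsum_mem_coe_finset]

lemma zeros_eq {F : Type} [Field F] [Fintype F] (Q : F[X]) (χ : MulChar (AdjoinRoot Q) ℂ) :
    zeros Q χ = CM.zs χ := by
  unfold zeros CM.zs
  rw [L_eq]

lemma powerSum_eq {F : Type} [Field F] [Fintype F] (Q : F[X]) (χ : MulChar (AdjoinRoot Q) ℂ)
    (m : ℕ) : powerSum Q χ m = CM.pw χ m := by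
  unfold powerSum CM.pw
  rw [zeros_eq]

open scoped Classical in
lemma mean_eq {F : Type} [Field F] [Fintype F] {Q : F[X]} (hQ : Q.Monic) (hirr : Irreducible Q)
    [Fintype (MulChar (AdjoinRoot Q) ℂ)] (g : MulChar (AdjoinRoot Q) ℂ → ℝ) :
    mean Q g = (∑ χ ∈ (Finset.univ : Finset (MulChar (AdjoinRoot Q) ℂ)).erase 1, g χ) /
      ((Fintype.card F : ℝ) ^ Q.natDegree - 2) := by
  have h : {χ : MulChar (AdjoinRoot Q) ℂ | χ ≠ 1} =
      (((Finset.univ : Finset (MulChar (AdjoinRoot Q) ℂ)).erase 1 :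
        Finset (MulChar (AdjoinRoot Q) ℂ)) : Set (MulChar (AdjoinRoot Q) ℂ)) := by
    ext χ
    simp
  unfold mean
  rw [h, finsum_mem_coe_finset, Set.ncard_coe_finset, CM.card_nonpr hQ hirr]

lemma meanSquare_eq {F : Type} [Field F] [Fintype F] {Q : F[X]} (hQ : Q.Monic)
    (hirr : Irreducible Q) [Fintype (MulChar (AdjoinRoot Q) ℂ)] (m : ℕ) :
    meanSquare Q m = CM.MSq Q m := by
  unfold meanSquare CM.MSq
  rw [mean_eq hQ hirr]
  simp_rw [powerSum_eq]

lemma meanNumber_eq {F : Type} [Field F] [Fintype F] {Q : F[X]} (hQ : Q.Monic)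
    (hirr : Irreducible Q) [Fintype (MulChar (AdjoinRoot Q) ℂ)] :
    meanNumber Q = CM.Nav Q := by
  unfold meanNumber CM.Nav
  rw [mean_eq hQ hirr]
  simp_rw [zeros_eq]

lemma bad_mono {F : Type} [Field F] [Fintype F] {ε δ₁ δ₂ : ℝ} (h : δ₂ ≤ δ₁) {Q : F[X]}
    (hb : CM.BadQ ε δ₂ Q) : CM.BadQ ε δ₁ Q := by
  obtain ⟨m, h1, h2, h3⟩ := hb
  refine ⟨m, h1, h2, lt_of_le_of_lt ?_ h3⟩
  have hq := two_le_card (F := F)
  apply mul_le_mul_of_nonneg_left _ (by positivity)
  apply add_le_add_left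
  apply Real.rpow_le_rpow_of_exponent_le (by linarith)
  have : δ₂ * (Q.natDegree : ℝ) ≤ δ₁ * Q.natDegree :=
    mul_le_mul_of_nonneg_right h (Nat.cast_nonneg _)
  linarith

lemma rho_eq {F : Type} [Field F] [Fintype F] {m d : ℕ} (h : d ≤ m) :
    1 / CM.rho F ^ (m - d) = (Fintype.card F : ℝ) ^ (-(((m : ℝ) - d) / 8)) := by
  have hrho := CM.rho_ge (F := F)
  have hq := two_le_card (F := F)
  have hq0 : (0:ℝ) < (Fintype.card F : ℝ) := by linarith
  have h5 : CM.rho F ^ (8:ℕ) = (Fintype.card F : ℝ) := by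
    rw [← CM.om_four (F := F), ← CM.rho_sq, ← pow_mul]
  have hr0 : 0 < CM.rho F := by linarith
  have h6 : CM.rho F = (Fintype.card F : ℝ) ^ ((1:ℝ) / 8) := by
    rw [← h5, ← Real.rpow_natCast, ← Real.rpow_mul hr0.le]
    norm_num
  rw [h6, ← Real.rpow_natCast, ← Real.rpow_mul hq0.le, Nat.cast_sub h, one_div,
    ← Real.rpow_neg hq0.le]
  congr 1
  ring

/-- **The form factor of the zeros modulo a prime polynomial, beyond the diagonal range.**

(1), for every monic irreducible `Q` of degree `d ≥ 2` over a finite field with `q` elements: for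
every nonprincipal character modulo `Q`, all the zeros of `L(u, χ)` other than `u = 1` lie on the
critical circle and there are `d - 1` or `d - 2` of them; and for `1 ≤ m < d` the mean of
`|∑ e(m θ)| ^ 2` over the nonprincipal characters is `min(m, meanNumber)` up to
`7 m q ^ (-m/2) + 4 q ^ (m-d)`.

(2) There is an absolute constant `K`, and for every `ε > 0` there are `δ > 0` and `N`, such that
for every finite field with `q` elements and every `d ≥ N`, for all but at most `q ^ (d - δ d)` of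
the monic irreducible `Q` of degree `d`, uniformly for `d ≤ m ≤ (4/3 - ε) d`: the mean of
`|∑ e(m θ)| ^ 2` is `meanNumber` up to `q ^ (-δ d) + K q ^ (-(m-d)/8)`. -/
theorem result :
    (∀ (F : Type) [Field F] [Fintype F] (Q : F[X]), Q.Monic → Irreducible Q → 2 ≤ Q.natDegree →
      (∀ χ : MulChar (AdjoinRoot Q) ℂ, χ ≠ 1 →
        (∀ u : ℂ, (L Q χ).IsRoot u → u ≠ 1 → ‖u‖ = (√(Fintype.card F : ℝ))⁻¹) ∧
        ((zeros Q χ).card = Q.natDegree - 1 ∨ (zeros Q χ).card = Q.natDegree - 2)) ∧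
      (∀ m : ℕ, 1 ≤ m → m < Q.natDegree →
        |meanSquare Q m - min (m : ℝ) (meanNumber Q)| ≤
          7 * (m * (Fintype.card F : ℝ) ^ (-(m / 2 : ℝ))) +
            4 * (Fintype.card F : ℝ) ^ ((m : ℝ) - Q.natDegree))) ∧
    ∃ K : ℝ, ∀ ε : ℝ, 0 < ε → ∃ δ : ℝ, 0 < δ ∧ ∃ N : ℕ,
      ∀ (F : Type) [Field F] [Fintype F] (d : ℕ), N ≤ d →
        ({Q : F[X] | Q.Monic ∧ Irreducible Q ∧ Q.natDegree = d ∧
          ∃ m : ℕ, d ≤ m ∧ (m : ℝ) ≤ (4 / 3 - ε) * d ∧
            (Fintype.card F : ℝ) ^ (-(δ * d)) +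
              K * (Fintype.card F : ℝ) ^ (-(((m : ℝ) - d) / 8)) <
              |meanSquare Q m - meanNumber Q|}.ncard : ℝ) ≤
          (Fintype.card F : ℝ) ^ ((d : ℝ) - δ * d) := by
  classical
  constructor
  · intro F _ _ Q hQ hirr hd
    have hfin : Finite (MulChar (AdjoinRoot Q) ℂ) := by
      have := RH.finite_adjoinRoot hQ
      infer_instance
    have hft : Fintype (MulChar (AdjoinRoot Q) ℂ) := Fintype.ofFinite _
    have hq := two_le_card (F := F)
    have hq0 : (0:ℝ) < (Fintype.card F : ℝ) := by linarith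
    constructor
    · intro χ hχ
      have hL0 : CM.Lp Q χ ≠ 0 := CM.Lp_ne_zero (by omega) χ
      constructor
      · intro u hu hu1
        have hmem : u ∈ (CM.Lp Q χ).roots := by
          rw [mem_roots hL0, ← L_eq]
          exact hu
        by_cases he : CM.EvenC χ
        · obtain ⟨h1, -⟩ := CM.zs_even hQ hirr hd hχ he
          rw [h1, Multiset.mem_cons] at hmem
          rcases hmem with h | h
          · exact absurd h hu1
          · unfold CM.zs at h
            exact (Multiset.mem_filter.mp h).2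
        · obtain ⟨h1, -⟩ := CM.zs_odd hQ hirr hd hχ he
          rw [← h1] at hmem
          unfold CM.zs at hmem
          exact (Multiset.mem_filter.mp hmem).2
      · rw [zeros_eq]
        by_cases he : CM.EvenC χ
        · exact Or.inr (CM.zs_even hQ hirr hd hχ he).2
        · exact Or.inl (CM.zs_odd hQ hirr hd hχ he).2
    · intro m hm hmd
      rw [meanSquare_eq hQ hirr, meanNumber_eq hQ hirr]
      have h := CM.ff_below hQ hirr hd hm hmd
      have h1 : (√(Fintype.card F : ℝ))⁻¹ ^ m = (Fintype.card F : ℝ) ^ (-(m / 2 : ℝ)) := by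
        rw [Real.sqrt_eq_rpow, ← Real.rpow_neg hq0.le, ← Real.rpow_natCast,
          ← Real.rpow_mul hq0.le]
        congr 1
        ring
      have h2 : (Fintype.card F : ℝ) ^ m / (Fintype.card F : ℝ) ^ Q.natDegree =
          (Fintype.card F : ℝ) ^ ((m : ℝ) - Q.natDegree) := by
        rw [Real.rpow_sub hq0, Real.rpow_natCast, Real.rpow_natCast]
      rwa [h1, h2] at h
  · refine ⟨96 * Real.exp 18 + 50, fun ε hε => ?_⟩
    obtain ⟨δ₁, hδ₁, N₁, hN₁⟩ := CM.good_irr ε hε
    set δ₂ : ℝ := min δ₁ (1 / 4) with hδ₂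
    have hδ₂0 : 0 < δ₂ := lt_min hδ₁ (by norm_num)
    have hδ₂1 : δ₂ ≤ δ₁ := min_le_left _ _
    have hδ₂4 : δ₂ ≤ 1 / 4 := min_le_right _ _
    obtain ⟨N₂, hN₂⟩ := CM.ff_beyond δ₂ hδ₂0 hδ₂4
    refine ⟨δ₂ / 2, by linarith, max N₁ N₂, ?_⟩
    intro F _ _ d hd
    have hq := two_le_card (F := F)
    have hq0 : (0:ℝ) < (Fintype.card F : ℝ) := by linarith
    have hsub : {Q : F[X] | Q.Monic ∧ Irreducible Q ∧ Q.natDegree = d ∧
          ∃ m : ℕ, d ≤ m ∧ (m : ℝ) ≤ (4 / 3 - ε) * d ∧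
            (Fintype.card F : ℝ) ^ (-(δ₂ / 2 * d)) +
              (96 * Real.exp 18 + 50) * (Fintype.card F : ℝ) ^ (-(((m : ℝ) - d) / 8)) <
              |meanSquare Q m - meanNumber Q|} ⊆
        (((Ir F d).filter (fun Q => CM.BadQ ε δ₁ Q) : Finset F[X]) : Set F[X]) := by
      rintro Q ⟨hQ, hirr, hQd, m, hm1, hm2, hlt⟩
      rw [Finset.coe_filter, Set.mem_ofPred_eq, mem_Ir]
      refine ⟨⟨hQ, hirr, hQd⟩, ?_⟩
      by_contra hgood
      have hgood₂ : ¬ CM.BadQ ε δ₂ Q := fun hb => hgood (bad_mono hδ₂1 hb)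
      have hfin : Finite (MulChar (AdjoinRoot Q) ℂ) := by
        have := RH.finite_adjoinRoot hQ
        infer_instance
      have hft : Fintype (MulChar (AdjoinRoot Q) ℂ) := Fintype.ofFinite _
      have h := hN₂ F Q ε hε hQ hirr (by omega) hgood₂ m (by omega) (by rw [hQd]; exact hm2)
      rw [← meanSquare_eq hQ hirr, ← meanNumber_eq hQ hirr, hQd] at h
      have hρ : 1 / CM.rho F ^ (m - d) = (Fintype.card F : ℝ) ^ (-(((m : ℝ) - d) / 8)) :=
        rho_eq hm1
      rw [← hρ, ← div_eq_mul_one_div] at hlt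
      linarith
    refine (Nat.cast_le.mpr (Set.ncard_le_ncard hsub (Finset.finite_toSet _))).trans ?_
    rw [Set.ncard_coe_finset]
    refine (hN₁ F d (le_trans (le_max_left _ _) hd)).trans ?_
    rw [← Real.rpow_natCast, ← Real.rpow_add hq0]
    apply Real.rpow_le_rpow_of_exponent_le (by linarith)
    have hdn : (0:ℝ) ≤ d := Nat.cast_nonneg _
    nlinarith

end Pool.Agent.Results.MP_00e05b_nt.FormFactorPrimeModuli
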